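import Pool.Agent.helper36.PP.SpecL

/-!
# pp:INQ, the inequality for the pairing with an invariant line field
-/

set_option autoImplicit false

open Complex Metric Set Filter Topology MeasureTheory MPS MQ Pool.Agent.helper98.ILF

noncomputable section

namespace PPS

/-- INQ. -/
theorem INQ (hRADI : RADI_stmt) (hSD1 : SD1_stmt) (hSD2 : SD2_stmt) (hPAIR : PAIR_stmt)
    (hLIM : LIM_stmt) : INQ_stmt := by
  intro k _ f b g A μ hn hb hμ hρ hg
  obtain ⟨r, hr, hr1, hr2⟩ := hRADI k f b hb hρ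
  set Λ : ℝ := Real.log ‖rho f b‖ with hΛ
  have hΛ0 : 0 ≤ Λ := Real.log_nonneg hρ
  have hn1 : 1 ≤ f.natDegree := le_trans (by norm_num) hn
  refine le_of_forall_pos_le_add fun ε hε => ?_
  have hδ : 0 < ε / 2 := half_pos hε
  have h1 := hSD1 k f b g r hn1 hb hr hr1 (ε / 2) hδ
  have h2 := hSD2 k f b g r A hn1 hb hr hr1 (ε / 2) hδ
  have h3 := (hLIM k f b g A μ r hn hb hμ hr hg).2.norm
  refine le_of_tendsto h3 ?_
  filter_upwards [h1, h2, self_mem_nhdsWithin] with s hs1 hs2 hs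
  have hs0 : (0 : ℝ) < s := hs
  have h4 := hPAIR k f b g A μ (fun i => s * r i) hn1 hb hμ (fun i => mul_pos hs0 (hr i))
  have h5 := h4.trans (add_le_add hs1 hs2)
  rw [hr2, ← ENNReal.ofReal_add (by positivity) hδ.le] at h5
  have h6 := (ENNReal.ofReal_le_ofReal_iff (by positivity)).1 h5
  linarith

end PPS
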